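import Pool.Agent.H10.ABY.Stmts

/-!
# ABY, row ALL: the main theorem for all heights
-/

set_option autoImplicit false

namespace Pool.ABY

open Finset Pool.Agent.H98.ABCR Pool.SHA

/-- the logarithmic factor is absorbed -/
private theorem all34_log {ε X : ℝ} (hε : 0 < ε) (hX : 1 ≤ X) (C : ℝ) (hC : 1 ≤ C) :
    1 + C * (1 + Real.log X) ^ 2 ≤ (1 + C * (1 + 4 / ε) ^ 2) * X ^ (ε / 2) := by
  have h0 : (0 : ℝ) ≤ Real.log X := Real.log_nonneg hX
  have h1 : 1 ≤ X ^ (ε / 4) := Real.one_le_rpow hX (by positivity)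
  have h2 : 1 ≤ X ^ (ε / 2) := Real.one_le_rpow hX (by positivity)
  have h3 : X ^ (ε / 4) * X ^ (ε / 4) = X ^ (ε / 2) := by
    rw [← Real.rpow_add (by linarith)]
    congr 1
    ring
  have h4 : Real.log X ≤ X ^ (ε / 4) / (ε / 4) :=
    Real.log_le_rpow_div (by linarith) (by positivity)
  have h5 : 1 + Real.log X ≤ (1 + 4 / ε) * X ^ (ε / 4) := by
    have e1 : X ^ (ε / 4) / (ε / 4) = 4 / ε * X ^ (ε / 4) := by
      field_simp
    rw [e1] at h4
    nlinarith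
  have h6 : (1 + Real.log X) ^ 2 ≤ (1 + 4 / ε) ^ 2 * X ^ (ε / 2) := by
    have e1 := mul_self_le_mul_self (by linarith : 0 ≤ 1 + Real.log X) h5
    calc (1 + Real.log X) ^ 2 = (1 + Real.log X) * (1 + Real.log X) := by ring
      _ ≤ _ := e1
      _ = (1 + 4 / ε) ^ 2 * (X ^ (ε / 4) * X ^ (ε / 4)) := by ring
      _ = _ := by rw [h3]
  have h7 : C * (1 + Real.log X) ^ 2 ≤ C * ((1 + 4 / ε) ^ 2 * X ^ (ε / 2)) :=
    mul_le_mul_of_nonneg_left h6 (by linarith)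
  linarith

/-- **ALL**: all heights, from the theorem with the factor `1 + log H` and an effective bound for
the height. -/
theorem all_thm (h1 : S_MAY) (h2 : S_EHB) : S_ALL := by
  intro ε hε
  obtain ⟨C₁, hC₁, hM⟩ := h1 (ε / 2) (by positivity)
  obtain ⟨C₂, hC₂, hE⟩ := h2
  refine ⟨C₁ * (1 + C₂ * (1 + 4 / ε) ^ 2), ?_, ?_⟩
  · have e1 : 0 ≤ C₂ * (1 + 4 / ε) ^ 2 := by positivity
    nlinarith
  intro X Y F hX hY hF
  have h0 : (0 : ℝ) ≤ Real.log X := Real.log_nonneg hX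
  set H : ℝ := Real.exp (C₂ * (1 + Real.log X) ^ 2) with hH
  have hH1 : 1 ≤ H := Real.one_le_exp (by positivity)
  have hF' : ∀ v ∈ F, IsTri v ∧ (RR v : ℝ) ≤ X ∧ SmallY Y v ∧ hh v ≤ H := by
    intro v hv
    obtain ⟨a1, a2, a3⟩ := hF v hv
    refine ⟨a1, a2, a3, (hE v a1).trans (Real.exp_le_exp.2 ?_)⟩
    have b1 : (0 : ℝ) ≤ Real.log (RR v) := Real.log_natCast_nonneg _
    have b2 : Real.log (RR v) ≤ Real.log X := by
      rcases Nat.eq_zero_or_pos (RR v) with hz | hz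
      · rw [hz, Nat.cast_zero, Real.log_zero]
        exact h0
      · exact Real.log_le_log (by exact_mod_cast hz) a2
    have b3 : (1 + Real.log (RR v)) ^ 2 ≤ (1 + Real.log X) ^ 2 :=
      pow_le_pow_left₀ (by linarith) (by linarith) 2
    exact mul_le_mul_of_nonneg_left b3 (by linarith)
  have hcard := hM X Y H F hX hY hH1 hF'
  rw [hH, Real.log_exp] at hcard
  have hlog := all34_log hε hX C₂ hC₂
  have h3 : X ^ (ε / 2) * X ^ (ε / 2) = X ^ ε := by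
    rw [← Real.rpow_add (by linarith)]
    congr 1
    ring
  have hp : 0 ≤ C₁ * X ^ (ε / 2) * Real.sqrt (X * Y) := by positivity
  calc (F.card : ℝ) ≤ C₁ * X ^ (ε / 2) * Real.sqrt (X * Y) * (1 + C₂ * (1 + Real.log X) ^ 2) :=
        hcard
    _ ≤ C₁ * X ^ (ε / 2) * Real.sqrt (X * Y) *
        ((1 + C₂ * (1 + 4 / ε) ^ 2) * X ^ (ε / 2)) := mul_le_mul_of_nonneg_left hlog hp
    _ = C₁ * (1 + C₂ * (1 + 4 / ε) ^ 2) * (X ^ (ε / 2) * X ^ (ε / 2)) * Real.sqrt (X * Y) := by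
        ring
    _ = C₁ * (1 + C₂ * (1 + 4 / ε) ^ 2) * X ^ ε * Real.sqrt (X * Y) := by rw [h3]

end Pool.ABY
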